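import Pool.Agent.U172.JP.Pub

/-!
# Polarized varieties of odd dimension with bad reduction: definitions
-/

open CategoryTheory AlgebraicGeometry

universe u

namespace Pool.Agent.U172.JP

open Pool.Agent.TH125.Gal Pool.Agent.H914 Pool.Agent.H914.VarClass Pool.Agent.H914.VarClass.Obj
  Pool.Agent.H914.WeilCohomology Pool.Agent.H281R3.HT

/-- The actions of `Γ` on the algebra `A`. -/
abbrev Act (K : Type) [Field K] (A : Type) [Ring A] [Algebra K A] (Γ : Type) [Group Γ] : Type :=
  Γ →* (A ≃ₐ[K] A)

variable {k : Type u} [Field k] {𝒱 : VarClass k} {ops : CycleOps 𝒱}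
  {W : WeilCohomology.{u, 0} ops} {Γ : Type} [Group Γ] {ι : Type}

/-- The pull-backs by the projections of the product are equivariant for the action `υ`. -/
def ProdAct (A B : GVar W Γ) (υ : Act W.K (W.H (A.X.prod B.X)) Γ) : Prop :=
  Intertwines (W.map (fst A.X B.X)) A.act υ ∧ Intertwines (W.map (snd A.X B.X)) B.act υ

/-- For all `A` and `B` in `G` the product of `A` and `B`, with an action which is compatible with the
projections, is in `G`. -/
def ClosedUnderProducts (G : Set (GVar W Γ)) : Prop :=
  ∀ A ∈ G, ∀ B ∈ G, ∃ υ : Act W.K (W.H (A.X.prod B.X)) Γ, ProdAct A B υ ∧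
    (⟨A.X.prod B.X, υ⟩ : GVar W Γ) ∈ G

/-- The group acts on the cohomology of the members of the class `G` like a Galois group, and `G`
is closed under products. The variety `Z` and the odd-dimensional varieties `X i` are members of `G`;
the divisors `D i` on `X i` satisfy the hard Lefschetz theorem and the standard conjectures of
Lefschetz and of Hodge type; the transcendental cohomology of `X i` is in the middle degree and
irreducible under all subgroups of finite index; and for every `i` there is an element as in
`JordanCondition` which acts trivially on the cohomology of `Z` and of the other `X j`. -/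
structure JordanSystem (χ : Γ →* W.Kˣ) (G : Set (GVar W Γ)) (X : ι → GVar W Γ)
    (D : ∀ i, (X i).X.Cycles) (Z : GVar W Γ) : Prop where
  galois : ∀ A ∈ G, IsGaloisVar χ A
  prod : ClosedUnderProducts G
  mem : ∀ i, X i ∈ G
  mem_base : Z ∈ G
  polarization : ∀ i, IsPolarization W (X i).X (D i)
  bad : ∀ i, BadReduction χ (X i) (trivialOn X Z i)

end Pool.Agent.U172.JP
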