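import Pool.Agent.U172.JT.Cls
import Pool.Agent.U172.JT.Sys
import Pool.Agent.U172.JP.PubVars
import Pool.Agent.U172.JP.PubSys

/-!
# The definitions for the statements and the ones of the proofs
-/

open CategoryTheory AlgebraicGeometry

universe u

namespace Pool.Agent.U172.JP

open Pool.Agent.TH125.Gal Pool.Agent.H914 Pool.Agent.H914.VarClass Pool.Agent.H914.VarClass.Obj
  Pool.Agent.H914.WeilCohomology Pool.Agent.H281R3.HT

section Alg

variable {K : Type} [Field K] {A : Type} [Ring A] [Algebra K A] {Γ : Type} [Group Γ]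

theorem jc {χ : Γ →* Kˣ} {T : Submodule K A} {ρ : Γ →* (A ≃ₐ[K] A)} {M : Set Γ}
    (h : JordanCondition χ T ρ M) : JT.JordanCondition T ρ {g | χ g = 1 ∧ g ∈ M} := by
  obtain ⟨g, hM, hχ, hu, hb⟩ := h
  exact ⟨g, ⟨hχ, hM⟩, hu, hb⟩

end Alg

variable {k : Type u} [Field k] {𝒱 : VarClass k} {ops : CycleOps 𝒱}
  {W : WeilCohomology.{u, 0} ops} {Γ : Type} [Group Γ] {ι : Type}

theorem JordanVars.toJT {χ : Γ →* W.Kˣ} {X : ι → GVar W Γ} {Z : GVar W Γ}
    (h : JordanVars χ X Z) : JT.JordanVars χ X Z where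
  odd i := (h.bad i).1
  galois := h.galois
  homEqNum := h.homEqNum
  middle i := (h.bad i).2.1
  irreducible i := (h.bad i).2.2.1
  cond i := Or.inl (jc (h.bad i).2.2.2)

theorem JordanSystem.toJT {χ : Γ →* W.Kˣ} {G : Set (GVar W Γ)} {X : ι → GVar W Γ}
    {D : ∀ i, (X i).X.Cycles} {Z : GVar W Γ}
    (h : JordanSystem χ G X D Z) : JT.JordanSystem χ G X D Z where
  galois := h.galois
  prod := h.prod
  mem := h.mem
  mem_base := h.mem_base
  odd i := (h.bad i).1
  transIrred i := ⟨h.polarization i, (h.bad i).2.1, (h.bad i).2.2.1⟩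
  cond i := Or.inl (jc (h.bad i).2.2.2)

end Pool.Agent.U172.JP
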