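import Pool.Agent.TH125.Gal.Pub2

/-!
# Local monodromy with Jordan blocks of several sizes: definitions
-/

open CategoryTheory AlgebraicGeometry

universe u

namespace Pool.Agent.U172.JP

open Pool.Agent.TH125.Gal

section Alg

variable {K : Type} [Field K] {A : Type} [Ring A] [Algebra K A] {Γ : Type} [Group Γ]

/-- The operator `g - 1`. -/
def dif (ρ : Γ →* (A ≃ₐ[K] A)) (g : Γ) : Module.End K A := (ρ g).toLinearMap - 1

/-- `g` acts unipotently on `T`. -/
def UnipotentOn (T : Submodule K A) (ρ : Γ →* (A ≃ₐ[K] A)) (g : Γ) : Prop :=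
  ∃ m : ℕ, ∀ t ∈ T, (dif ρ g ^ m) t = 0

/-- The number of the Jordan blocks of size greater than `j` of a unipotent element `g` on `T`: the
dimension of the space of the elements of `(g - 1) ^ j T` which are killed by `g - 1`. -/
noncomputable def blocksAbove (T : Submodule K A) (ρ : Γ →* (A ≃ₐ[K] A)) (g : Γ) (j : ℕ) : ℕ :=
  Module.finrank K (LinearMap.ker (dif ρ g) ⊓ T.map (dif ρ g ^ j) : Submodule K A)

/-- The number of the Jordan blocks of size `j > 0` of `g` on `T`. -/
noncomputable def blocks (T : Submodule K A) (ρ : Γ →* (A ≃ₐ[K] A)) (g : Γ) (j : ℕ) : ℕ :=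
  blocksAbove T ρ g (j - 1) - blocksAbove T ρ g j

/-- There are Jordan blocks of size one, all the other Jordan blocks have even sizes, and there is
exactly one Jordan block of some even size. -/
def MixedBlocks (T : Submodule K A) (ρ : Γ →* (A ≃ₐ[K] A)) (g : Γ) : Prop :=
  blocks T ρ g 1 ≠ 0 ∧ (∀ j, Odd j → 3 ≤ j → blocks T ρ g j = 0) ∧
    ∃ j, Even j ∧ blocks T ρ g j = 1

/-- The eigenvalues of `F` on `T` are `a, a c, a c ^ 2, ...`, with (algebraic) multiplicities, for
some numbers `a` and `c`. -/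
def Geometric (T : Submodule K A) (ρ : Γ →* (A ≃ₐ[K] A)) (F : Γ) : Prop :=
  ∃ a c : K, ∀ b : K,
    Module.finrank K (T ⊓ Module.End.maxGenEigenspace (ρ F).toLinearMap b : Submodule K A) =
      {i : ℕ | i < Module.finrank K T ∧ a * c ^ i = b}.ncard

/-- There is a single Jordan block, and `T` has dimension two or the eigenvalues of some element of
the group on `T` are not a geometric progression. -/
def OneBlock (T : Submodule K A) (ρ : Γ →* (A ≃ₐ[K] A)) (g : Γ) : Prop :=
  blocksAbove T ρ g 0 = 1 ∧ (Module.finrank K T = 2 ∨ ∃ F : Γ, ¬ Geometric T ρ F)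

/-- `a` is an eigenvalue of `F` on `T`. -/
def EigenvalueOn (T : Submodule K A) (ρ : Γ →* (A ≃ₐ[K] A)) (F : Γ) (a : K) : Prop :=
  ∃ t ∈ T, t ≠ 0 ∧ ρ F t = a • t

/-- The eigenvalues of `F` on `T` are simple; for every `q ≠ 1` there are at most two eigenvalues `a`
such that `q a` is an eigenvalue, and none such that `q a` and `q ^ 2 a` are eigenvalues. -/
def FewQuotients (T : Submodule K A) (ρ : Γ →* (A ≃ₐ[K] A)) (F : Γ) : Prop :=
  (∀ a, Module.finrank K (T ⊓ Module.End.maxGenEigenspace (ρ F).toLinearMap a : Submodule K A) ≤ 1) ∧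
  (∀ q : K, q ≠ 1 → {a : K | EigenvalueOn T ρ F a ∧ EigenvalueOn T ρ F (q * a)}.ncard ≤ 2) ∧
  ∀ q : K, q ≠ 1 → ∀ a, EigenvalueOn T ρ F a → EigenvalueOn T ρ F (q * a) →
    ¬ EigenvalueOn T ρ F (q * (q * a))

/-- Some element `g` of `M` with `χ g = 1` is unipotent on `T`, and it has mixed Jordan blocks; or a
single Jordan block (see `OneBlock`); or it acts nontrivially, and some element of the group has few
quotients of eigenvalues on `T`. -/
def JordanCondition (χ : Γ →* Kˣ) (T : Submodule K A) (ρ : Γ →* (A ≃ₐ[K] A)) (M : Set Γ) : Prop :=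
  ∃ g ∈ M, χ g = 1 ∧ UnipotentOn T ρ g ∧
    (MixedBlocks T ρ g ∨ OneBlock T ρ g ∨ ((∃ t ∈ T, ρ g t ≠ t) ∧ ∃ F : Γ, FewQuotients T ρ F))

/-- `T` is contained in `gr n` and irreducible under all subgroups of finite index, and there is an
element of `M` as in `JordanCondition`. -/
def BigOn (χ : Γ →* Kˣ) (T : Submodule K A) (gr : ℕ → Submodule K A) (n : ℕ)
    (ρ : Γ →* (A ≃ₐ[K] A)) (M : Set Γ) : Prop :=
  T ≤ gr n ∧ IrredAct ρ T ∧ JordanCondition χ T ρ M

end Alg

open Pool.Agent.H914 Pool.Agent.H914.VarClass Pool.Agent.H914.VarClass.Obj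
  Pool.Agent.H914.WeilCohomology Pool.Agent.H281R3.HT

variable {k : Type u} [Field k] {𝒱 : VarClass k} {ops : CycleOps 𝒱}
  {W : WeilCohomology.{u, 0} ops} {Γ : Type} [Group Γ]

/-- The dimension of the variety `X` is odd, its transcendental cohomology is in the middle degree
and irreducible under all subgroups of finite index, and there is an element of `M` as in
`JordanCondition`. -/
def BadReduction (χ : Γ →* W.Kˣ) (X : GVar W Γ) (M : Set Γ) : Prop :=
  Odd X.X.dim ∧ BigOn χ (transcendental W X.X) (W.gr X.X) X.X.dim X.act M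

/-- The elements of `Γ` which act trivially on the cohomology of `Z` and of the `X j`, `j ≠ i`. -/
def trivialOn {ι : Type} (X : ι → GVar W Γ) (Z : GVar W Γ) (i : ι) : Set Γ :=
  {g | TrivVar Z g ∧ ∀ j, j ≠ i → TrivVar (X j) g}

end Pool.Agent.U172.JP
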